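import Pool.Agent.Helper480.AC.P7

/-!
# Admissible classes of groups (MP_027985_al)

`Closed K`: the class `K` is closed under isomorphism, subgroups, epimorphic images and
automorphism groups.  `Admissible K`: moreover some countable group is not in `K`.
`AlmostCyclic G`: `G` has a cyclic subgroup of finite index.
`Tits G`: `G` contains a free group of rank two or has a soluble subgroup of finite index.
`Has K H`: some member of `K` is isomorphic to `H`.
`Shape n`: `n` is `1`, `2`, `4`, `p ^ m` or `2 * p ^ m` with `p` an odd prime, `m ≥ 1`.
-/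

set_option autoImplicit false

universe u

open Function

namespace Pool.Agent.Results.MP_027985_al.TitsReduction

open Pool.Agent.Helper480.AC

/-- `G` has a homomorphism to the infinite cyclic group with finite kernel. -/
def FinByZ (G : Type u) [Group G] : Prop := ∃ f : G →* Multiplicative ℤ, Finite f.ker

theorem fz_kpi (G : Type u) [Group G] (h : FinByZ G) : Kpi Set.univ G := by
  obtain ⟨f, hf⟩ := h
  exact Or.inr ⟨f, hf, fun _ _ => trivial⟩

theorem z_classes (K : ∀ (G : Type u) [Group G], Prop)
    (hfin : ∀ (G : Type u) [Group G], Finite G → K G)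
    (hZ : ∀ (G : Type u) [Group G], K G → FinByZ G)
    (iso : ∀ (G H : Type u) [Group G] [Group H], Nonempty (G ≃* H) → K G → K H)
    (sub : ∀ (G : Type u) [Group G] (H : Subgroup G), K G → K H)
    (quot : ∀ (G Q : Type u) [Group G] [Group Q] (f : G →* Q), Surjective f → K G → K Q) :
    Admissible K := by
  have hK : Closed K := ⟨iso, sub, quot, fun G _ h => hfin _ (kpi_aut Set.univ (fz_kpi G (hZ G h)))⟩
  apply ((tfae hK).out 0 5).2
  intro G _ hG
  exact kpi_ac Set.univ G (fz_kpi G (hZ G hG))

/-- The main result. -/
theorem result :
    -- I. for every class `K` closed under isomorphism, subgroups, images, automorphism groups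
    (∀ K : ∀ (G : Type u) [Group G], Prop, Closed K →
      -- (1) equivalent forms of admissibility
      (List.TFAE
        [Admissible K,
         ¬ Has K (FreeGroup Bool),
         ¬ Has K (Multiplicative (ℤ × ℤ)),
         ∀ p : ℕ, p.Prime → ¬ Has K (Multiplicative (ℕ →₀ ZMod p)),
         ∃ p : ℕ, p.Prime ∧ ¬ Has K (Multiplicative (ℕ →₀ ZMod p)),
         ∀ (G : Type u) [CommGroup G], K G → AlmostCyclic G,
         ∀ (G : Type u) [Group G], K G → Tits G → AlmostCyclic G]) ∧
      -- (2) one member with an element of infinite order gives all finite and all cyclic groups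
      (∀ (G : Type u) [Group G], K G → (∃ g : G, ¬ IsOfFinOrder g) →
        ∀ (H : Type u) [Group H], Finite H ∨ IsCyclic H → K H) ∧
      -- (3) a missing finite group bounds the ranks of the elementary abelian members, and the
      -- members satisfying the Tits alternative are finite if `K` is admissible
      (∀ (Q : Type u) [Group Q], Finite Q → ¬ K Q →
        (∀ p : ℕ, p.Prime → ∀ n : ℕ,
          Has K (Multiplicative (Fin n →₀ ZMod p)) → n < Nat.card Q) ∧
        (Admissible K → ∀ (G : Type u) [Group G], K G → Tits G → Finite G)) ∧
      -- (4) description of the admissible classes of groups satisfying the Tits alternative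
      ((∀ (G : Type u) [Group G], K G → Tits G) →
        (Admissible K ↔ ((∀ (G : Type u) [Group G], K G → Finite G) ∨
          ((∀ (G : Type u) [Group G], Finite G ∨ IsCyclic G → K G) ∧
            ∀ (G : Type u) [Group G], K G → AlmostCyclic G))))) ∧
    -- II. every isomorphism-, subgroup- and image-closed class between the class of finite groups
    -- and the class of groups with a map to `ℤ` with finite kernel is admissible
    (∀ K : ∀ (G : Type u) [Group G], Prop,
      (∀ (G : Type u) [Group G], Finite G → K G) →
      (∀ (G : Type u) [Group G], K G → FinByZ G) →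
      (∀ (G H : Type u) [Group G] [Group H], Nonempty (G ≃* H) → K G → K H) →
      (∀ (G : Type u) [Group G] (H : Subgroup G), K G → K H) →
      (∀ (G Q : Type u) [Group G] [Group Q] (f : G →* Q), Surjective f → K G → K Q) →
      Admissible K) ∧
    -- III. complete classification of the admissible classes of nilpotent groups
    (∀ K : ∀ (G : Type u) [Group G], Prop,
      (∀ (G H : Type u) [Group G] [Group H], Nonempty (G ≃* H) → K G → K H) →
      (∀ (G : Type u) [Group G], K G → Group.IsNilpotent G) →
      (Admissible K ↔ ∃ N : Set ℕ, 0 ∉ N ∧ (∀ n ∈ N, ∀ d, d ∣ n → d ∈ N) ∧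
        (∀ n ∈ N, n.totient ∈ N) ∧ (∀ n ∈ N, Shape n) ∧
        ∀ (G : Type u) [Group G], K G ↔ IsCyclic G ∧ Nat.card G ∈ N)) ∧
    -- IV. there are continuum many admissible classes of almost cyclic groups that contain all
    -- finite and all cyclic groups: one for each set of primes
    (∃ Φ : Set Nat.Primes → (∀ (G : Type u) [Group G], Prop), Injective Φ ∧ ∀ π,
      Admissible (Φ π) ∧ (∀ (G : Type u) [Group G], Finite G ∨ IsCyclic G → Φ π G) ∧
        ∀ (G : Type u) [Group G], Φ π G → AlmostCyclic G) := by
  refine ⟨?_, ?_, ?_, ?_⟩
  · intro K hK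
    refine ⟨tfae hK, ?_, ?_, ?_⟩
    · rintro G _ hG ⟨g, hg⟩ H _ hH
      exact mixed hK G hG g hg H hH
    · intro Q _ hfin hQ
      refine ⟨fun p hp n hn => rank_bound hK Q hQ p hp n hn, fun hA G _ hG ht => ?_⟩
      by_contra hinf
      obtain ⟨c, hc⟩ := (ac_iff G).1 (tits_ac hA hG ht)
      have hco : ¬ IsOfFinOrder c := by
        intro hco
        have h1 : Finite (Subgroup.zpowers c) := hco.finite_zpowers
        have h2 : Finite (G ⧸ Subgroup.zpowers c) := Subgroup.finite_quotient_of_finiteIndex
        exact hinf (Finite.of_subgroup_quotient (Subgroup.zpowers c))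
      exact hQ (mixed hK G hG c hco Q (Or.inl hfin))
    · exact tits_classes hK
  · exact z_classes
  · exact fun K hiso hn => nilpotent_classes hiso hn
  · refine ⟨fun π G _ => Kpi π G, ?_, ?_⟩
    · intro π π' h
      ext p
      have h1 := congrFun (congrFun h (ULift.{u} (Multiplicative ℤ × Multiplicative (ZMod p))))
        inferInstance
      rw [← kpi_test.{u} π p, ← kpi_test.{u} π' p]
      exact iff_of_eq h1
    · intro π
      exact ⟨kpi_adm π, fun G _ h => kpi_cyc π G h, fun G _ h => kpi_ac π G h⟩

end Pool.Agent.Results.MP_027985_al.TitsReduction
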